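import Mathlib

namespace Pool.Agent.Ovo

open MvPolynomial Module

theorem dvd_nat {p : ℕ} {α : Type} (i : Fintype α) (h : p ∣ @Fintype.card α i) :
    p ∣ Nat.card α := by
  rw [@Nat.card_eq_fintype_card α i]
  exact h

/-- Chevalley - Warning for a bilinear diagonal with values in a small space. -/
theorem exists_zero {p : ℕ} [Fact p.Prime] {A E : Type} [AddCommGroup A] [Module (ZMod p) A]
    [Finite A] [AddCommGroup E] [Module (ZMod p) E] (b : A →ₗ[ZMod p] A →ₗ[ZMod p] E)
    (B : Submodule (ZMod p) E) [Finite B] (hB : ∀ v, b v v ∈ B)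
    (hc : Nat.card B ^ 2 < Nat.card A) : ∃ v, v ≠ 0 ∧ b v v = 0 := by
  classical
  have i1 : Module.Finite (ZMod p) A := Module.Finite.of_finite
  have i2 : Module.Finite (ZMod p) B := Module.Finite.of_finite
  set r := finrank (ZMod p) A with hr
  set h := finrank (ZMod p) B with hh
  have hcA : Nat.card A = p ^ r := by
    rw [Module.natCard_eq_pow_finrank (K := ZMod p) (V := A), Nat.card_zmod]
  have hcB : Nat.card B = p ^ h := by
    rw [Module.natCard_eq_pow_finrank (K := ZMod p) (V := B), Nat.card_zmod]
  have hp : p.Prime := Fact.out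
  have hlt : 2 * h < r := by
    rw [hcA, hcB, ← pow_mul] at hc
    have := (Nat.pow_lt_pow_iff_right hp.one_lt).1 hc
    omega
  let e := finBasis (ZMod p) A
  let f := finBasis (ZMod p) B
  have hext : ∀ k : Fin h, ∃ φ : E →ₗ[ZMod p] ZMod p, ∀ y : B, φ y = f.repr y k := by
    intro k
    obtain ⟨φ, hφ⟩ := LinearMap.exists_extend (f.coord k)
    exact ⟨φ, fun y => by
      have := LinearMap.congr_fun hφ y
      simpa using this⟩
  choose φ hφ using hext
  let P : Fin h → MvPolynomial (Fin r) (ZMod p) := fun k =>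
    ∑ i, ∑ j, C (φ k (b (e i) (e j))) * (X i * X j)
  have hdeg : ∀ k, (P k).totalDegree ≤ 2 := by
    intro k
    refine MvPolynomial.totalDegree_finsetSum_le (fun i _ => ?_)
    refine MvPolynomial.totalDegree_finsetSum_le (fun j _ => ?_)
    refine (totalDegree_mul _ _).trans ?_
    rw [totalDegree_C, zero_add]
    refine (totalDegree_mul _ _).trans ?_
    rw [totalDegree_X, totalDegree_X]
  have heval : ∀ (t : Fin r → ZMod p) (k : Fin h),
      eval t (P k) = φ k (b (∑ i, t i • e i) (∑ i, t i • e i)) := by
    intro t k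
    simp only [P, map_sum, map_mul, eval_C, eval_X, map_smul, LinearMap.sum_apply,
      LinearMap.smul_apply, smul_eq_mul]
    rw [Finset.sum_comm]
    refine Finset.sum_congr rfl (fun i _ => ?_)
    rw [Finset.mul_sum]
    refine Finset.sum_congr rfl (fun j _ => ?_)
    ring
  by_contra hcon
  push Not at hcon
  have hdvd := dvd_nat _ (char_dvd_card_solutions_of_fintype_sum_lt (K := ZMod p) p (f := P) (by
    calc ∑ i, (P i).totalDegree ≤ ∑ _i : Fin h, 2 := Finset.sum_le_sum (fun i _ => hdeg i)
      _ = 2 * h := by simp [mul_comm]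
      _ < Fintype.card (Fin r) := by simpa using hlt))
  have hone : Nat.card { x : Fin r → ZMod p // ∀ i, eval x (P i) = 0 } = 1 := by
    rw [Nat.card_eq_one_iff_unique]
    refine ⟨⟨?_⟩, ⟨0, ?_⟩⟩
    swap
    · intro k
      rw [heval]
      simp
    · have key : ∀ t : Fin r → ZMod p, (∀ i, eval t (P i) = 0) → t = 0 := ?_
      · rintro ⟨t, ht⟩ ⟨t', ht'⟩
        exact Subtype.ext ((key t ht).trans (key t' ht').symm)
      intro t ht
      have h0 : b (∑ i, t i • e i) (∑ i, t i • e i) = 0 := by
        have h1 : (⟨b (∑ i, t i • e i) (∑ i, t i • e i), hB _⟩ : B) = 0 := by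
          apply f.repr.injective
          ext k
          rw [← hφ k]
          simp only [map_zero, Finsupp.coe_zero, Pi.zero_apply]
          rw [← heval]
          exact ht k
        exact congrArg Subtype.val h1
      have h2 : ∑ i, t i • e i = 0 := by
        by_contra h3
        exact hcon _ h3 h0
      have h4 := e.linearIndependent
      rw [Fintype.linearIndependent_iff] at h4
      funext i
      exact h4 t h2 i
  rw [hone] at hdvd
  exact hp.one_lt.ne' (Nat.dvd_one.1 hdvd)

end Pool.Agent.Ovo
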