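import Mathlib

namespace Pool.Agent.Ovo

open Polynomial

theorem card_roots_le {K : Type} [Field K] [Finite K] (f : K[X]) (hf : f ≠ 0) :
    Nat.card {a : K // f.eval a = 0} ≤ f.natDegree := by
  classical
  have h1 : Nat.card {a : K // f.eval a = 0} ≤ f.roots.toFinset.card := by
    have : Nat.card {a : K // f.eval a = 0} ≤ Nat.card f.roots.toFinset := by
      refine Nat.card_le_card_of_injective
        (fun a => ⟨a.1, by rw [Multiset.mem_toFinset, mem_roots hf]; exact a.2⟩) ?_
      intro a b hab
      exact Subtype.ext (congrArg (fun c : f.roots.toFinset => (c : K)) hab)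
    exact this.trans (le_of_eq (Nat.card_eq_fintype_card.trans (Fintype.card_coe _)))
  exact h1.trans ((Multiset.toFinset_card_le _).trans (card_roots' f))

variable {K : Type} [Field K] [Finite K] {q : ℕ} (hK : Nat.card K = q ^ 2)

include hK in
theorem two_le_q : 2 ≤ q := by
  have h1 : 1 < Nat.card K := Finite.one_lt_card
  rw [hK] at h1
  rcases Nat.lt_or_ge q 2 with h | h
  · interval_cases q <;> simp at h1
  · exact h

include hK in
theorem card_trace_zero : Nat.card {a : K // a + a ^ q = 0} ≤ q := by
  have h2 := two_le_q hK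
  have hd : (X ^ q + X : K[X]).natDegree = q := by
    rw [natDegree_add_eq_left_of_natDegree_lt] <;> simp
    omega
  have hne : (X ^ q + X : K[X]) ≠ 0 := by
    intro h
    rw [h] at hd
    simp at hd
    omega
  have := card_roots_le (X ^ q + X : K[X]) hne
  rw [hd] at this
  simpa [add_comm] using this

include hK in
theorem card_fixed : Nat.card {a : K // a ^ q = a} ≤ q := by
  have h2 := two_le_q hK
  have hd : (X ^ q - X : K[X]).natDegree = q := by
    rw [natDegree_sub_eq_left_of_natDegree_lt] <;> simp
    omega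
  have hne : (X ^ q - X : K[X]) ≠ 0 := by
    intro h
    rw [h] at hd
    simp at hd
    omega
  have := card_roots_le (X ^ q - X : K[X]) hne
  rw [hd] at this
  simpa [sub_eq_zero] using this

include hK in
theorem exists_theta (bar : K →+* K) (hbar : ∀ a, bar a = a ^ q) (bb : ∀ a, bar (bar a) = a) :
    ∃ θ : K, θ + bar θ = 1 := by
  have h2 := two_le_q hK
  have h1 : ∃ b : K, b + bar b ≠ 0 := by
    by_contra hcon
    push Not at hcon
    have h3 : Nat.card K ≤ Nat.card {a : K // a + a ^ q = 0} := by
      refine Nat.card_le_card_of_injective (fun a => ⟨a, by rw [← hbar]; exact hcon a⟩) ?_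
      intro a b hab
      exact congrArg (fun c : {a : K // a + a ^ q = 0} => (c : K)) hab
    have h4 := h3.trans (card_trace_zero hK)
    rw [hK] at h4
    nlinarith
  obtain ⟨b, hb⟩ := h1
  refine ⟨b / (b + bar b), ?_⟩
  have h5 : bar (b + bar b) = b + bar b := by
    rw [map_add, bb, add_comm]
  rw [map_div₀, h5]
  field_simp

/-- The field has characteristic `p` and `q` is a power of `p`; `a ↦ a^q` is a ring hom. -/
theorem exists_bar {K : Type} [Field K] [Finite K] {q : ℕ} (hK : Nat.card K = q ^ 2) :
    ∃ bar : K →+* K, (∀ a, bar a = a ^ q) ∧ (∀ a, bar (bar a) = a) := by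
  classical
  have i0 : Fintype K := Fintype.ofFinite K
  obtain ⟨p, hp⟩ := CharP.exists K
  have hpp : p.Prime := CharP.char_is_prime K p
  have : Fact p.Prime := ⟨hpp⟩
  obtain ⟨m, _, hm⟩ := FiniteField.card K p
  rw [← Nat.card_eq_fintype_card, hK] at hm
  have hdv : q ∣ p ^ (m : ℕ) := by rw [← hm]; exact dvd_pow_self q (by norm_num)
  obtain ⟨h, _, hh⟩ := (Nat.dvd_prime_pow hpp).1 hdv
  have hbar : ∀ a : K, iterateFrobenius K p h a = a ^ q := by
    intro a
    rw [iterateFrobenius_def, hh]
  refine ⟨iterateFrobenius K p h, hbar, ?_⟩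
  intro a
  rw [hbar, hbar, ← pow_mul, ← pow_two, ← hK, Nat.card_eq_fintype_card, FiniteField.pow_card]

end Pool.Agent.Ovo
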