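import Pool.Agent.Ovo.Herm
import Pool.Agent.Ovo.CW
import Pool.Agent.Ovo.Fld

namespace Pool.Agent.Ovo

namespace HF

variable {K V : Type} [Field K] [AddCommGroup V] [Module K V] (F : HF K V)
  [Finite K] [Finite V] {q : ℕ} (hK : Nat.card K = q ^ 2) (hbar : ∀ a, F.bar a = a ^ q)

include hK hbar in
theorem card_aniso_aux {p : ℕ} [Fact p.Prime] (A : AddSubgroup V) [Module (ZMod p) A]
    [Module (ZMod p) K] (hA : ∀ u ∈ A, u ≠ 0 → F.H u u ≠ 0) : Nat.card A ≤ q ^ 2 := by
  classical
  let c : A → (A →+ K) := fun u =>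
    { toFun := fun v => F.H u v
      map_zero' := F.zeror _
      map_add' := fun v w => F.addr _ _ _ }
  let b : A →ₗ[ZMod p] (A →ₗ[ZMod p] K) := AddMonoidHom.toZModLinearMap p
    { toFun := fun u => (c u).toZModLinearMap p
      map_zero' := by
        apply LinearMap.ext
        intro v
        exact F.zerol _
      map_add' := fun u w => by
        apply LinearMap.ext
        intro v
        exact F.addl _ _ _ }
  let B0 : AddSubgroup K :=
    { carrier := {a | a ^ q = a}
      zero_mem' := by
        rw [Set.mem_ofPred_eq, ← hbar, map_zero]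
      add_mem' := by
        intro a b ha hb
        rw [Set.mem_ofPred_eq] at *
        rw [← hbar, map_add, hbar, hbar, ha, hb]
      neg_mem' := by
        intro a ha
        rw [Set.mem_ofPred_eq] at *
        rw [← hbar, map_neg, hbar, ha] }
  let B : Submodule (ZMod p) K := AddSubgroup.toZModSubmodule p B0
  have hBc : Nat.card B ≤ q := by
    change Nat.card {a : K // a ^ q = a} ≤ q
    exact card_fixed hK
  by_contra hcon
  push Not at hcon
  have hB : ∀ v, b v v ∈ B := by
    intro v
    change (F.H v v) ^ q = F.H v v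
    rw [← hbar]
    exact F.self_bar _
  obtain ⟨v, hv1, hv2⟩ := exists_zero b B hB
    (lt_of_le_of_lt (Nat.pow_le_pow_left hBc 2) hcon)
  exact hA v v.2 (by simpa using hv1) hv2

include hK hbar in
/-- An additive subgroup without isotropic vectors has at most `q^2` elements. -/
theorem card_aniso (A : AddSubgroup V) (hA : ∀ u ∈ A, u ≠ 0 → F.H u u ≠ 0) :
    Nat.card A ≤ q ^ 2 := by
  classical
  obtain ⟨p, hp⟩ := CharP.exists K
  have hpp : p.Prime := CharP.char_is_prime K p
  have : Fact p.Prime := ⟨hpp⟩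
  have hpV : ∀ v : A, p • v = 0 := by
    intro v
    apply Subtype.ext
    have h1 : (p : K) • (v : V) = 0 := by rw [CharP.cast_eq_zero K p, zero_smul]
    have h2 : p • (v : V) = 0 := by rw [← Nat.cast_smul_eq_nsmul K]; exact h1
    simpa using h2
  have hpK : ∀ a : K, p • a = 0 := by
    intro a
    rw [nsmul_eq_mul, CharP.cast_eq_zero K p, zero_mul]
  exact @card_aniso_aux K V _ _ _ F _ _ q hK hbar p _ A (AddCommGroup.zmodModule hpV)
    (AddCommGroup.zmodModule hpK) hA

include hK hbar in
theorem exists_iso_coset (A : AddSubgroup V) (hA : ∀ u ∈ A, u ≠ 0 → F.H u u ≠ 0)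
    (hc : Nat.card A = q ^ 2) (w : V) (hw : w ∉ A) : ∃ v ∈ A, F.H (v + w) (v + w) = 0 := by
  classical
  obtain ⟨p, hp⟩ := CharP.exists K
  have hpp : p.Prime := CharP.char_is_prime K p
  have hpV : ∀ v : V, (p : ℤ) • v = 0 := by
    intro v
    have h1 : (p : K) • v = 0 := by rw [CharP.cast_eq_zero K p, zero_smul]
    rw [natCast_zsmul, ← Nat.cast_smul_eq_nsmul K]
    exact h1
  by_contra hcon
  push Not at hcon
  have key : ∀ u ∈ A ⊔ AddSubgroup.zmultiples w, u ≠ 0 → F.H u u ≠ 0 := by
    intro u hu hu0 hiso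
    obtain ⟨v, hv, y, hy, rfl⟩ := AddSubgroup.mem_sup.1 hu
    obtain ⟨m, rfl⟩ := AddSubgroup.mem_zmultiples_iff.1 hy
    by_cases hm : (p : ℤ) ∣ m
    · obtain ⟨k, rfl⟩ := hm
      have h3 : ((p : ℤ) * k) • w = 0 := by
        rw [mul_comm, mul_smul, hpV, smul_zero]
      rw [h3, add_zero] at hiso hu0
      exact hA v hv hu0 hiso
    · have hcop : IsCoprime (p : ℤ) m := by
        rw [Int.isCoprime_iff_gcd_eq_one]
        have := (Nat.Prime.coprime_iff_not_dvd hpp).2
          (show ¬ p ∣ m.natAbs by
            intro h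
            exact hm (Int.natCast_dvd.2 h))
        simpa [Int.gcd] using this
      obtain ⟨a, k, hak⟩ := hcop
      have h4 : k • (m • w) = w := by
        have h5 : (a * p + k * m) • w = w := by rw [hak, one_smul]
        rw [add_smul, mul_smul, hpV, smul_zero, zero_add, mul_smul] at h5
        exact h5
      apply hcon (k • v) (A.zsmul_mem hv k)
      have h6 : k • v + w = (k : K) • (v + m • w) := by
        rw [Int.cast_smul_eq_zsmul, smul_add, h4]
      rw [h6, F.smull, F.smulr, hiso, mul_zero, mul_zero]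
  have h1 := F.card_aniso hK hbar _ key
  have h2 : A < A ⊔ AddSubgroup.zmultiples w := by
    refine lt_of_le_of_ne le_sup_left ?_
    intro h
    apply hw
    rw [h]
    exact AddSubgroup.mem_sup_right (AddSubgroup.mem_zmultiples w)
  have h3 : Nat.card A < Nat.card (A ⊔ AddSubgroup.zmultiples w : AddSubgroup V) := by
    have h4 := Set.ncard_lt_ncard (s := (A : Set V)) (t := (A ⊔ AddSubgroup.zmultiples w : AddSubgroup V))
      h2 (Set.toFinite _)
    rw [← Nat.card_coe_set_eq, ← Nat.card_coe_set_eq] at h4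
    exact h4
  omega

end HF

end Pool.Agent.Ovo
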