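import Mathlib

namespace Pool.Agent.Ovo

/-- A nondegenerate Hermitian form (unbundled data). -/
structure HF (K V : Type) [Field K] [AddCommGroup V] [Module K V] where
  bar : K →+* K
  bb : ∀ a, bar (bar a) = a
  H : V → V → K
  addl : ∀ u v w, H (u + v) w = H u w + H v w
  smull : ∀ (a : K) u w, H (a • u) w = a * H u w
  symm : ∀ u v, bar (H u v) = H v u
  nd : ∀ u, (∀ v, H v u = 0) → u = 0

namespace HF

variable {K V : Type} [Field K] [AddCommGroup V] [Module K V] (F : HF K V)

theorem addr (u v w : V) : F.H u (v + w) = F.H u v + F.H u w := by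
  rw [← F.symm (v + w) u, F.addl, map_add, F.symm, F.symm]

theorem smulr (a : K) (u v : V) : F.H u (a • v) = F.bar a * F.H u v := by
  rw [← F.symm (a • v) u, F.smull, map_mul, F.symm]

theorem zerol (u : V) : F.H 0 u = 0 := by
  have := F.smull 0 0 u
  simpa using this

theorem zeror (u : V) : F.H u 0 = 0 := by
  have := F.smulr 0 u 0
  simpa using this

theorem negl (u v : V) : F.H (-u) v = - F.H u v := by
  have := F.smull (-1) u v
  simpa using this

theorem negr (u v : V) : F.H u (-v) = - F.H u v := by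
  have := F.smulr (-1) u v
  simpa using this

theorem subl (u v w : V) : F.H (u - v) w = F.H u w - F.H v w := by
  rw [sub_eq_add_neg, F.addl, F.negl, sub_eq_add_neg]

theorem subr (u v w : V) : F.H u (v - w) = F.H u v - F.H u w := by
  rw [sub_eq_add_neg, F.addr, F.negr, sub_eq_add_neg]

theorem sw {u v : V} (h : F.H u v = 0) : F.H v u = 0 := by
  rw [← F.symm, h, map_zero]

theorem self_bar (u : V) : F.bar (F.H u u) = F.H u u := F.symm u u

/-- Totally isotropic. -/
def TI (M : Submodule K V) : Prop := ∀ u ∈ M, ∀ v ∈ M, F.H u v = 0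

theorem exists_max [Finite V] {M : Submodule K V} (h : F.TI M) :
    ∃ M', M ≤ M' ∧ Maximal F.TI M' := by
  have i0 : Finite (Submodule K V) := Finite.of_injective (fun M => (M : Set V)) SetLike.coe_injective
  obtain ⟨b, hb1, hb2⟩ := Set.Finite.exists_le_maximal (Set.toFinite {M : Submodule K V | F.TI M}) h
  exact ⟨b, hb1, hb2⟩

theorem TI_sup {M : Submodule K V} (h : F.TI M) {v : V} (hv : F.H v v = 0)
    (hm : ∀ m ∈ M, F.H m v = 0) : F.TI (M ⊔ Submodule.span K {v}) := by
  intro a ha b hb
  obtain ⟨m, hm1, y, hy, rfl⟩ := Submodule.mem_sup.1 ha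
  obtain ⟨m', hm1', y', hy', rfl⟩ := Submodule.mem_sup.1 hb
  obtain ⟨s, rfl⟩ := Submodule.mem_span_singleton.1 hy
  obtain ⟨s', rfl⟩ := Submodule.mem_span_singleton.1 hy'
  simp only [F.addl, F.addr, F.smull, F.smulr, h m hm1 m' hm1', hm m hm1, F.sw (hm m' hm1'), hv]
  ring

theorem TI_bot : F.TI ⊥ := by
  intro u hu v hv
  rw [(Submodule.mem_bot K).1 hu]
  exact F.zerol v

theorem TI_span {v : V} (hv : F.H v v = 0) : F.TI (Submodule.span K {v}) := by
  have := F.TI_sup F.TI_bot hv (by
    intro m hm
    rw [(Submodule.mem_bot K).1 hm]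
    exact F.zerol v)
  simpa using this

theorem TI_pair {v w : V} (hv : F.H v v = 0) (hw : F.H w w = 0) (hvw : F.H v w = 0) :
    F.TI (Submodule.span K {v} ⊔ Submodule.span K {w}) := by
  apply F.TI_sup (F.TI_span hv) hw
  intro m hm
  obtain ⟨s, rfl⟩ := Submodule.mem_span_singleton.1 hm
  rw [F.smull, hvw, mul_zero]

/-- If `u` is isotropic and perpendicular to a maximal totally isotropic `M`, then `u ∈ M`. -/
theorem mem_of_perp {M : Submodule K V} (hM : Maximal F.TI M) {u : V} (hu : F.H u u = 0)
    (hm : ∀ m ∈ M, F.H m u = 0) : u ∈ M := by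
  have h1 := F.TI_sup hM.1 hu hm
  have h2 := hM.2 h1 le_sup_left
  exact h2 (Submodule.mem_sup_right (Submodule.mem_span_singleton_self u))

/-- `|M|^2 ≤ |V|` for totally isotropic `M`. -/
theorem card_TI [Finite K] [Finite V] {M : Submodule K V} (h : F.TI M) :
    Nat.card M ^ 2 ≤ Nat.card V := by
  classical
  let f : M → Module.Dual K (V ⧸ M) := fun m =>
    M.liftQ { toFun := fun v => F.H v m, map_add' := fun u v => F.addl u v m,
              map_smul' := fun a u => by simp [F.smull] } (by
      intro v hv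
      simp only [LinearMap.mem_ker, LinearMap.coe_mk, AddHom.coe_mk]
      exact h v hv m m.2)
  have hf : Function.Injective f := by
    intro m m' hmm
    have h1 : ∀ v, F.H v (m : V) = F.H v (m' : V) := by
      intro v
      have := congrArg (fun φ : Module.Dual K (V ⧸ M) => φ (M.mkQ v)) hmm
      simpa [f] using this
    have h2 : (m : V) - m' = 0 := F.nd _ (by intro v; rw [F.subr, h1 v, sub_self])
    exact Subtype.ext (sub_eq_zero.1 h2)
  have i1 : Finite (V ⧸ M) := Finite.of_surjective M.mkQ M.mkQ_surjective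
  have i2 : Module.Finite K V := Module.Finite.of_finite
  have i3 : Finite (Module.Dual K (V ⧸ M)) := by
    exact Finite.of_injective (fun φ : Module.Dual K (V ⧸ M) => (φ : V ⧸ M → K)) DFunLike.coe_injective
  have h3 : Nat.card M ≤ Nat.card (Module.Dual K (V ⧸ M)) := Nat.card_le_card_of_injective f hf
  have h4 : Nat.card (Module.Dual K (V ⧸ M)) = Nat.card (V ⧸ M) := by
    rw [Module.natCard_eq_pow_finrank (K := K) (V := V ⧸ M),
      Module.natCard_eq_pow_finrank (K := K) (V := Module.Dual K (V ⧸ M)),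
      Subspace.dual_finrank_eq]
  have h5 := Submodule.card_eq_card_quotient_mul_card M
  rw [h4] at h3
  rw [h5, pow_two, mul_comm]
  first
    | exact Nat.mul_le_mul_right _ h3
    | exact Nat.mul_le_mul_left _ h3

end HF

end Pool.Agent.Ovo
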