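import Pool.Agent.Ovo.Grp

namespace Pool.Agent.Ovo

namespace HF

variable {K V : Type} [Field K] [AddCommGroup V] [Module K V] (F : HF K V)

/-- Elation with centre `x`. -/
structure El (x : V) (g : V ≃ₗ[K] V) : Prop where
  isom : ∀ u v, F.H (g u) (g v) = F.H u v
  fix : g x = x
  triv : ∀ u, F.H u x = 0 → ∃ a : K, g u = u + a • x

/-- Nonzero vectors spanning the points of an ovoid. -/
structure Ov (S : V → Prop) : Prop where
  ne : ∀ v, S v → v ≠ 0
  iso : ∀ v, S v → F.H v v = 0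
  sm : ∀ (a : K) v, a ≠ 0 → S v → S (a • v)
  ex : ∀ M, Maximal F.TI M → ∃ v ∈ M, S v
  uniq : ∀ M, Maximal F.TI M → ∀ v ∈ M, ∀ w ∈ M, S v → S w → ∃ a : K, w = a • v

variable {F}

theorem Ov.par [Finite V] {S : V → Prop} (hS : F.Ov S) {v w : V} (hv : S v) (hw : S w)
    (h : F.H v w = 0) : ∃ a : K, w = a • v := by
  obtain ⟨M, hM1, hM2⟩ := F.exists_max (F.TI_pair (hS.iso v hv) (hS.iso w hw) h)
  refine hS.uniq M hM2 v (hM1 ?_) w (hM1 ?_) hv hw
  · exact Submodule.mem_sup_left (Submodule.mem_span_singleton_self v)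
  · exact Submodule.mem_sup_right (Submodule.mem_span_singleton_self w)

theorem adjust {θ : K} (hθ : θ + F.bar θ = 1) {x v : V} (hx : F.H x x = 0)
    (hv : F.H x v ≠ 0) : ∃ c : K, F.H (v + c • x) (v + c • x) = 0 := by
  have h1 : F.H v x ≠ 0 := by
    intro h
    exact hv (F.sw h)
  refine ⟨-(θ * F.H v v / F.H x v), ?_⟩
  have h2 : F.bar (-(θ * F.H v v / F.H x v)) = -(F.bar θ * F.H v v / F.H v x) := by
    rw [map_neg, map_div₀, map_mul, F.symm, F.symm]
  rw [F.addl, F.addr, F.addr, F.smull, F.smull, F.smulr, F.smulr, hx, h2]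
  have h3 : F.bar θ = 1 - θ := by rw [← hθ]; ring
  rw [h3]
  field_simp
  ring

variable (F) in
/-- Projection along `x` onto the hyperplane perpendicular to `z`. -/
noncomputable def pr (x z u : V) : V := u - (F.H u z / F.H x z) • x

theorem pr_z {x z : V} (h : F.H x z ≠ 0) (u : V) : F.H (F.pr x z u) z = 0 := by
  rw [pr, F.subl, F.smull]
  field_simp
  ring

theorem pr_x {x z : V} (hx : F.H x x = 0) (u : V) : F.H (F.pr x z u) x = F.H u x := by
  rw [pr, F.subl, F.smull, hx, mul_zero, sub_zero]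

theorem pr_add (x z u v : V) : F.pr x z (u + v) = F.pr x z u + F.pr x z v := by
  rw [pr, pr, pr, F.addl, add_div, add_smul]
  abel

theorem pr_sm {x z : V} (h : F.H x z ≠ 0) (a : K) : F.pr x z (a • x) = 0 := by
  rw [pr, F.smull, mul_div_assoc, div_self h, mul_one, sub_self]

theorem pr_zero (x z : V) : F.pr x z 0 = 0 := by
  rw [pr, F.zerol, zero_div, zero_smul, sub_zero]

theorem pr_eq (x z u : V) : u = F.pr x z u + (F.H u z / F.H x z) • x := by
  rw [pr]
  abel

variable (F) in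
/-- The additive part of an elation. -/
noncomputable def W (x z : V) (g : V ≃ₗ[K] V) : V := F.pr x z (g z - z)

theorem D_x {x : V} {g : V ≃ₗ[K] V} (hg : F.El x g) (z : V) : F.H (g z - z) x = 0 := by
  have h1 := hg.isom z x
  rw [hg.fix] at h1
  rw [F.subl, h1, sub_self]

theorem W_x {x z : V} (hx : F.H x x = 0) {g : V ≃ₗ[K] V} (hg : F.El x g) :
    F.H (F.W x z g) x = 0 := by
  rw [W, pr_x hx, D_x hg]

theorem W_z {x z : V} (h : F.H x z ≠ 0) (g : V ≃ₗ[K] V) : F.H (F.W x z g) z = 0 := by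
  rw [W, pr_z h]

theorem W_one (x z : V) : F.W x z 1 = 0 := by
  rw [W, LinearEquiv.coe_one, id, sub_self, pr_zero]

theorem W_mul {x z : V} (h : F.H x z ≠ 0) {g g' : V ≃ₗ[K] V} (hg : F.El x g) (hg' : F.El x g') :
    F.W x z (g * g') = F.W x z g + F.W x z g' := by
  obtain ⟨a, ha⟩ := hg.triv _ (D_x hg' z)
  have h1 : (g * g') z - z = (g z - z) + ((g' z - z) + a • x) := by
    rw [LinearEquiv.mul_apply, ← ha, map_sub]
    abel
  rw [W, h1, pr_add, pr_add, pr_sm h, add_zero]
  rfl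

theorem El.mul {x : V} {g g' : V ≃ₗ[K] V} (hg : F.El x g) (hg' : F.El x g') : F.El x (g * g') where
  isom := fun u v => by
    rw [LinearEquiv.mul_apply, LinearEquiv.mul_apply, hg.isom, hg'.isom]
  fix := by rw [LinearEquiv.mul_apply, hg'.fix, hg.fix]
  triv := fun u hu => by
    obtain ⟨a, ha⟩ := hg'.triv u hu
    obtain ⟨b, hb⟩ := hg.triv u hu
    refine ⟨b + a, ?_⟩
    rw [LinearEquiv.mul_apply, ha, map_add, hb, map_smul, hg.fix, add_smul]
    abel

/-- `g z = z + W g + a x`. -/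
theorem gz (x z : V) (g : V ≃ₗ[K] V) : ∃ a : K, g z = z + F.W x z g + a • x := by
  refine ⟨F.H (g z - z) z / F.H x z, ?_⟩
  rw [add_assoc, W, ← pr_eq]
  abel

/-- An elation with `W g = 0` is the identity on the hyperplane. -/
theorem triv_of_W {x z : V} (hx : F.H x x = 0) (h : F.H x z ≠ 0) {g : V ≃ₗ[K] V}
    (hg : F.El x g) (hW : F.W x z g = 0) {u : V} (hu : F.H u x = 0) : g u = u := by
  obtain ⟨a, ha⟩ := F.gz x z g
  obtain ⟨c, hc⟩ := hg.triv u hu
  have h1 := hg.isom u z
  rw [ha, hc, hW, add_zero] at h1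
  simp only [F.addl, F.addr, F.smull, F.smulr, hx, hu] at h1
  have h2 : c * F.H x z = 0 := by linear_combination h1
  rcases mul_eq_zero.1 h2 with h3 | h3
  · rw [hc, h3, zero_smul, add_zero]
  · exact absurd h3 h

/-- Decomposition `v = u + b z` with `u` perpendicular to `x`. -/
theorem decomp {x z : V} (h : F.H x z ≠ 0) (v : V) :
    ∃ (b : K) (u : V), v = u + b • z ∧ F.H u x = 0 := by
  have h1 : F.H z x ≠ 0 := fun h2 => h (F.sw h2)
  refine ⟨F.H v x / F.H z x, v - (F.H v x / F.H z x) • z, by abel, ?_⟩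
  rw [F.subl, F.smull]
  field_simp
  ring

theorem W_of_triv {x z : V} (h : F.H x z ≠ 0) {g : V ≃ₗ[K] V}
    (hg : F.El x g) (ht : ∀ u, F.H u x = 0 → g u = u) : F.W x z g = 0 := by
  apply F.nd
  intro v
  obtain ⟨b, u, rfl, hu⟩ := decomp h v
  have h1 : F.H (F.W x z g) u = 0 := by
    rw [W, pr, F.subl, F.subl, F.smull, F.sw hu, mul_zero, sub_zero]
    have := hg.isom z u
    rw [ht u hu] at this
    rw [this, sub_self]
  rw [F.addl, F.smull, F.sw h1, F.sw (W_z h g), mul_zero, add_zero]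

/-- Key anisotropy. -/
theorem aniso [Finite V] {θ : K} (hθ : θ + F.bar θ = 1) {S : V → Prop} (hS : F.Ov S) {x z : V}
    (hx : S x) (hz : S z) (h : F.H x z ≠ 0) {g : V ≃ₗ[K] V} (hg : F.El x g)
    (hgS : ∀ v, S v → S (g v)) (hW : F.W x z g ≠ 0) : F.H (F.W x z g) (F.W x z g) ≠ 0 := by
  intro hiso
  have hxx := hS.iso x hx
  have hzz := hS.iso z hz
  have h' : F.H z x ≠ 0 := fun h2 => h (F.sw h2)
  obtain ⟨a, ha⟩ := F.gz x z g
  have hwx := W_x (z := z) hxx hg
  have hwz := W_z h g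
  set w := F.W x z g with hw
  -- the vector t0
  obtain ⟨v, hv⟩ : ∃ v, F.H v w ≠ 0 := by
    by_contra hcon
    push Not at hcon
    exact hW (F.nd w hcon)
  obtain ⟨t0, ht0x, ht0z, ht0w⟩ : ∃ t0, F.H t0 x = 0 ∧ F.H t0 z = 0 ∧ F.H t0 w = 1 := by
    refine ⟨(F.H v w)⁻¹ • (v - (F.H v z / F.H x z) • x - (F.H v x / F.H z x) • z), ?_, ?_, ?_⟩
    · simp only [F.subl, F.smull, hxx]
      field_simp
      ring
    · simp only [F.subl, F.smull, hzz]
      field_simp
      ring
    · simp only [F.subl, F.smull, F.sw hwx, F.sw hwz]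
      field_simp
      ring
  -- trace zero
  have hk : a * F.H x z + F.bar (a * F.H x z) = 0 := by
    have h1 := hg.isom z z
    rw [ha] at h1
    simp only [F.addl, F.addr, F.smull, F.smulr, hxx, hzz, hiso, hwx, hwz, F.sw hwx, F.sw hwz] at h1
    rw [map_mul, F.symm]
    linear_combination h1
  set κ := a * F.H x z with hκ
  obtain ⟨t, htx, htz, htw⟩ : ∃ t, F.H t x = 0 ∧ F.H t z = 0 ∧ F.H t w = κ * θ :=
    ⟨(κ * θ) • t0, by rw [F.smull, ht0x, mul_zero], by rw [F.smull, ht0z, mul_zero],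
      by rw [F.smull, ht0w, mul_one]⟩
  obtain ⟨c, hc⟩ := adjust hθ hxx (v := z + t) (by rw [F.addr, F.sw htx, add_zero]; exact h)
  set y := z + t + c • x with hy
  have hyx : F.H x y ≠ 0 := by
    rw [hy, F.addr, F.addr, F.smulr, F.sw htx, hxx, mul_zero, add_zero, add_zero]
    exact h
  have hyx' : F.H y x ≠ 0 := fun h2 => hyx (F.sw h2)
  -- image of t
  obtain ⟨e, he⟩ := hg.triv t htx
  have he2 : e * F.H x z = -(κ * θ) := by
    have h1 := hg.isom t z
    rw [ha, he] at h1
    simp only [F.addl, F.addr, F.smull, F.smulr, hxx, htx, htz, htw, F.sw hwx] at h1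
    linear_combination h1
  set w' := w + (a + e) • x with hw'
  have hgy : g y = y + w' := by
    rw [hy, map_add, map_add, map_smul, hg.fix, ha, he, hw', add_smul]
    abel
  have hw'w' : F.H w' w' = 0 := by
    rw [hw']
    simp only [F.addl, F.addr, F.smull, F.smulr, hxx, hiso, hwx, F.sw hwx]
    ring
  have hw'x : F.H w' x = 0 := by
    rw [hw', F.addl, F.smull, hxx, hwx, mul_zero, add_zero]
  have hw'y : F.H w' y = 0 := by
    rw [hw', hy]
    simp only [F.addl, F.addr, F.smull, F.smulr, hxx, hwx, hwz, F.sw htx]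
    have h1 : F.H w t = F.bar κ * F.bar θ := by
      rw [← F.symm t w, htw, map_mul]
    have h2 : F.bar κ = -κ := by linear_combination hk
    have h3 : F.bar θ = 1 - θ := by rw [← hθ]; ring
    rw [h1, h2, h3]
    linear_combination he2 + (hκ.symm)
  have hw'0 : w' ≠ 0 := by
    intro h1
    have h2 : (a + e) * F.H x z = 0 := by
      have h3 : F.H w' z = 0 := by rw [h1, F.zerol]
      rw [hw', F.addl, F.smull, hwz, zero_add] at h3
      exact h3
    rcases mul_eq_zero.1 h2 with h3 | h3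
    · apply hW
      rw [hw', h3, zero_smul, add_zero] at h1
      exact h1
    · exact h h3
  obtain ⟨M, hM1, hM2⟩ := F.exists_max (F.TI_pair hc hw'w' (F.sw hw'y))
  have hyM : y ∈ M := hM1 (Submodule.mem_sup_left (Submodule.mem_span_singleton_self y))
  have hwM : w' ∈ M := hM1 (Submodule.mem_sup_right (Submodule.mem_span_singleton_self w'))
  obtain ⟨m, hm, hSm⟩ := hS.ex M hM2
  -- the image of m
  have hxM : x ∉ M := fun h1 => hyx (hM2.1 x h1 y hyM)
  have hmx : F.H m x ≠ 0 := by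
    intro h1
    obtain ⟨b, hb⟩ := hS.par hSm hx h1
    apply hxM
    rw [hb]
    exact M.smul_mem b hm
  set b := F.H m x / F.H y x with hb
  have hb0 : b ≠ 0 := div_ne_zero hmx hyx'
  set u := m - b • y with hu
  have huM : u ∈ M := M.sub_mem hm (M.smul_mem b hyM)
  have hux : F.H u x = 0 := by
    rw [hu, F.subl, F.smull, hb]
    field_simp
    ring
  have hgu : g u = u := by
    obtain ⟨e', he'⟩ := hg.triv u hux
    have h1 := hg.isom u y
    rw [hgy, he'] at h1
    simp only [F.addl, F.addr, F.smull, hM2.1 u huM y hyM, hM2.1 u huM w' hwM, F.sw hw'x] at h1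
    have h2 : e' * F.H x y = 0 := by linear_combination h1
    rcases mul_eq_zero.1 h2 with h3 | h3
    · rw [he', h3, zero_smul, add_zero]
    · exact absurd h3 hyx
  have hgm : g m = m + b • w' := by
    have h1 : m = u + b • y := by rw [hu]; abel
    rw [h1, map_add, map_smul, hgu, hgy, smul_add]
    abel
  obtain ⟨α, hα⟩ := hS.uniq M hM2 m hm (g m) (by rw [hgm]; exact M.add_mem hm (M.smul_mem b hwM))
    hSm (hgS m hSm)
  have hα1 : α = 1 := by
    have h1 : F.H (g m) x = F.H m x := by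
      rw [hgm, F.addl, F.smull, hw'x, mul_zero, add_zero]
    rw [hα, F.smull] at h1
    have h2 : (α - 1) * F.H m x = 0 := by linear_combination h1
    rcases mul_eq_zero.1 h2 with h3 | h3
    · linear_combination h3
    · exact absurd h3 hmx
  rw [hα1, one_smul, hgm] at hα
  have h5 : b • w' = 0 := by
    have := congrArg (fun t => t - m) hα
    simpa using this
  rcases smul_eq_zero.1 h5 with h6 | h6
  · exact hb0 h6
  · exact hw'0 h6

end HF

end Pool.Agent.Ovo
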