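import Pool.Agent.Ovo.Ovd

namespace Pool.Agent.Ovo

namespace HF

variable {K V : Type} [Field K] [AddCommGroup V] [Module K V] {F : HF K V}

/-- The image of `G` under `W`. -/
noncomputable def img {x z : V} (h : F.H x z ≠ 0) (G : Subgroup (V ≃ₗ[K] V))
    (hG : ∀ g ∈ G, F.El x g) : AddSubgroup V where
  carrier := {w | ∃ g ∈ G, F.W x z g = w}
  zero_mem' := ⟨1, G.one_mem, W_one x z⟩
  add_mem' := by
    rintro _ _ ⟨g, hg, rfl⟩ ⟨g', hg', rfl⟩
    exact ⟨g * g', G.mul_mem hg hg', W_mul h (hG g hg) (hG g' hg')⟩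
  neg_mem' := by
    rintro _ ⟨g, hg, rfl⟩
    refine ⟨g⁻¹, G.inv_mem hg, ?_⟩
    have h1 := W_mul h (hG g hg) (hG g⁻¹ (G.inv_mem hg))
    rw [mul_inv_cancel, W_one] at h1
    exact eq_neg_of_add_eq_zero_right h1.symm

theorem mem_img {x z : V} (h : F.H x z ≠ 0) (G : Subgroup (V ≃ₗ[K] V))
    (hG : ∀ g ∈ G, F.El x g) {w : V} : w ∈ img h G hG ↔ ∃ g ∈ G, F.W x z g = w := Iff.rfl

/-- The transvections in `G`. -/
abbrev Zt (F : HF K V) (x : V) (G : Subgroup (V ≃ₗ[K] V)) : Type :=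
  {g : V ≃ₗ[K] V // g ∈ G ∧ ∀ u, F.H u x = 0 → g u = u}

variable [Finite K] [Finite V] {q : ℕ} (hK : Nat.card K = q ^ 2) (hbar : ∀ a, F.bar a = a ^ q)
  {S : V → Prop} (hS : F.Ov S) {x z : V} (hx : S x) (hz : S z) (h : F.H x z ≠ 0)
  (G : Subgroup (V ≃ₗ[K] V)) (hG : ∀ g ∈ G, F.El x g) (hGS : ∀ g ∈ G, ∀ v, S v → S (g v))

instance fin_equiv : Finite (V ≃ₗ[K] V) :=
  Finite.of_injective (fun g : V ≃ₗ[K] V => (g : V → V)) DFunLike.coe_injective

include hK hbar hS hx in
theorem exists_z : ∃ z, S z ∧ F.H x z ≠ 0 := by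
  obtain ⟨θ, hθ⟩ := exists_theta hK F.bar hbar F.bb
  have hxx := hS.iso x hx
  obtain ⟨v, hv⟩ : ∃ v, F.H v x ≠ 0 := by
    by_contra hcon
    push Not at hcon
    exact hS.ne x hx (F.nd x hcon)
  have hv' : F.H x v ≠ 0 := fun h2 => hv (F.sw h2)
  obtain ⟨c, hc⟩ := adjust hθ hxx hv'
  obtain ⟨M, hM1, hM2⟩ := F.exists_max (F.TI_span hc)
  have hy : v + c • x ∈ M := hM1 (Submodule.mem_span_singleton_self _)
  obtain ⟨s, hs, hSs⟩ := hS.ex M hM2
  refine ⟨s, hSs, ?_⟩
  intro h1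
  obtain ⟨b, hb⟩ := hS.par hSs hx (F.sw h1)
  have h2 : x ∈ M := by
    rw [hb]
    exact M.smul_mem b hs
  have h3 := hM2.1 x h2 _ hy
  rw [F.addr, F.smulr, hxx, mul_zero, add_zero] at h3
  exact hv' h3

include hS hx hz h hG hbar in
omit [Finite K] [Finite V] in
theorem trace_Z (g : Zt F x G) :
    F.H (g.1 z) z + (F.H (g.1 z) z) ^ q = 0 := by
  have hxx := hS.iso x hx
  have hzz := hS.iso z hz
  have hW := W_of_triv h (hG g.1 g.2.1) g.2.2
  obtain ⟨a, ha⟩ := F.gz x z g.1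
  rw [hW, add_zero] at ha
  have h1 := (hG g.1 g.2.1).isom z z
  rw [ha] at h1
  simp only [F.addl, F.addr, F.smull, F.smulr, hxx, hzz] at h1
  rw [← hbar, ha, F.addl, F.smull, hzz, zero_add, map_mul, F.symm]
  linear_combination h1

include hS hz h hG in
omit [Finite K] [Finite V] in
theorem inj_Z (g g' : Zt F x G) (he : F.H (g.1 z) z = F.H (g'.1 z) z) : g = g' := by
  have hzz := hS.iso z hz
  have hW := W_of_triv h (hG g.1 g.2.1) g.2.2
  have hW' := W_of_triv h (hG g'.1 g'.2.1) g'.2.2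
  obtain ⟨a, ha⟩ := F.gz x z g.1
  obtain ⟨a', ha'⟩ := F.gz x z g'.1
  rw [hW, add_zero] at ha
  rw [hW', add_zero] at ha'
  rw [ha, ha', F.addl, F.addl, F.smull, F.smull] at he
  have h1 : a = a' := by
    have h2 : (a - a') * F.H x z = 0 := by linear_combination he
    rcases mul_eq_zero.1 h2 with h3 | h3
    · linear_combination h3
    · exact absurd h3 h
  apply Subtype.ext
  apply LinearEquiv.ext
  intro v
  obtain ⟨b, u, rfl, hu⟩ := decomp h v
  rw [map_add, map_add, map_smul, map_smul, g.2.2 u hu, g'.2.2 u hu, ha, ha', h1]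

include hK hS hx hz h hG hbar in
omit [Finite V] in
theorem card_Z : Nat.card (Zt F x G) ≤ q := by
  refine le_trans ?_ (card_trace_zero hK)
  refine Nat.card_le_card_of_injective
    (fun g => ⟨F.H (g.1 z) z, trace_Z hbar hS hx hz h G hG g⟩) ?_
  intro g g' hgg
  apply inj_Z hS hz h G hG
  exact congrArg Subtype.val hgg

include hS hx in
omit [Finite K] in
theorem card_G_le : Nat.card G ≤ Nat.card (img h G hG) * Nat.card (Zt F x G) := by
  classical
  have hxx := hS.iso x hx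
  rw [← Nat.card_prod]
  choose s hs1 hs2 using fun w : img h G hG => (mem_img h G hG).1 w.2
  let im : G → img h G hG := fun g => ⟨F.W x z g, g, g.2, rfl⟩
  have hz1 : ∀ g : G, F.W x z ((s (im g))⁻¹ * g) = 0 := by
    intro g
    have h1 := W_mul h (hG _ (hs1 (im g))) (hG _ (G.mul_mem (G.inv_mem (hs1 (im g))) g.2))
    rw [mul_inv_cancel_left, hs2] at h1
    have h2 : ((im g : img h G hG) : V) = F.W x z g := rfl
    rw [h2] at h1
    simpa using h1
  have hz2 : ∀ g : G, ∀ u, F.H u x = 0 → ((s (im g))⁻¹ * (g : V ≃ₗ[K] V)) u = u := by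
    intro g u hu
    exact triv_of_W hxx h (hG _ (G.mul_mem (G.inv_mem (hs1 (im g))) g.2)) (hz1 g) hu
  refine Nat.card_le_card_of_injective (fun g : G =>
    ((im g, ⟨(s (im g))⁻¹ * (g : V ≃ₗ[K] V), G.mul_mem (G.inv_mem (hs1 (im g))) g.2, hz2 g⟩) :
      img h G hG × Zt F x G)) ?_
  intro g g' hgg
  have h1 : im g = im g' := congrArg Prod.fst hgg
  have h2 : (s (im g))⁻¹ * (g : V ≃ₗ[K] V) = (s (im g'))⁻¹ * (g' : V ≃ₗ[K] V) :=
    congrArg (fun y : img h G hG × Zt F x G => y.2.1) hgg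
  rw [h1] at h2
  exact Subtype.ext (mul_left_cancel h2)

include hK hS hx hz hG hbar hGS in
theorem card_img : Nat.card (img h G hG) ≤ q ^ 2 := by
  obtain ⟨θ, hθ⟩ := exists_theta hK F.bar hbar F.bb
  apply F.card_aniso hK hbar
  intro u hu hu0
  obtain ⟨g, hg, rfl⟩ := (mem_img h G hG).1 hu
  exact aniso hθ hS hx hz h (hG g hg) (hGS g hg) hu0

include hK in
/-- A vector perpendicular to `x` outside `M + A`. -/
theorem exists_t {n : ℕ} (hn : 2 ≤ n) (hV : Nat.card V = q ^ (4 * n + 4)) {x z : V}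
    (h : F.H x z ≠ 0) (M : Submodule K V) (hM : F.TI M) (A : AddSubgroup V)
    (hA : Nat.card A ≤ q ^ 2) : ∃ t, F.H t x = 0 ∧ ∀ m ∈ M, ∀ a ∈ A, t ≠ m + a := by
  classical
  have hq := two_le_q hK
  by_contra hcon
  push Not at hcon
  have h1 : Nat.card V ≤ Nat.card {u : V // F.H u x = 0} * Nat.card K := by
    rw [← Nat.card_prod]
    choose b u hb hu using fun v : V => decomp h v
    refine Nat.card_le_card_of_injective (fun v => (⟨u v, hu v⟩, b v)) ?_
    intro v v' hv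
    have h2 : u v = u v' := congrArg (fun y : {u : V // F.H u x = 0} × K => (y.1 : V)) hv
    have h3 : b v = b v' := congrArg (fun y : {u : V // F.H u x = 0} × K => y.2) hv
    rw [hb v, hb v', h2, h3]
  have h2 : Nat.card {u : V // F.H u x = 0} ≤ Nat.card M * Nat.card A := by
    rw [← Nat.card_prod]
    choose m hm a ha he using fun u : {u : V // F.H u x = 0} => hcon u u.2
    refine Nat.card_le_card_of_injective (fun u => (⟨m u, hm u⟩, ⟨a u, ha u⟩)) ?_
    intro v v' hv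
    have h2 : m v = m v' := congrArg (fun y : M × A => (y.1 : V)) hv
    have h3 : a v = a v' := congrArg (fun y : M × A => (y.2 : V)) hv
    apply Subtype.ext
    rw [he v, he v', h2, h3]
  have h3 : Nat.card M ≤ q ^ (2 * n + 2) := by
    have h4 := F.card_TI hM
    rw [hV, show 4 * n + 4 = (2 * n + 2) * 2 by ring, pow_mul] at h4
    exact (Nat.pow_le_pow_iff_left (by norm_num)).1 h4
  have h5 : q ^ (4 * n + 4) ≤ q ^ (2 * n + 6) := by
    calc q ^ (4 * n + 4) = Nat.card V := hV.symm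
      _ ≤ Nat.card {u : V // F.H u x = 0} * Nat.card K := h1
      _ ≤ (Nat.card M * Nat.card A) * Nat.card K := Nat.mul_le_mul_right _ h2
      _ ≤ (q ^ (2 * n + 2) * q ^ 2) * q ^ 2 := by
        rw [hK]
        exact Nat.mul_le_mul_right _ (Nat.mul_le_mul h3 hA)
      _ = q ^ (2 * n + 6) := by ring
  have h6 := (Nat.pow_le_pow_iff_right (show 1 < q by omega)).1 h5
  omega

include hK hbar hS hx hz h in
theorem exists_far {n : ℕ} (hn : 2 ≤ n) (hV : Nat.card V = q ^ (4 * n + 4)) (A : AddSubgroup V)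
    (hA : Nat.card A ≤ q ^ 2) :
    ∃ z', S z' ∧ F.H z' x = F.H z x ∧ F.pr x z (z' - z) ∉ A := by
  have hxx := hS.iso x hx
  have hzz := hS.iso z hz
  have h' : F.H z x ≠ 0 := fun h2 => h (F.sw h2)
  obtain ⟨θ, hθ⟩ := exists_theta hK F.bar hbar F.bb
  obtain ⟨M, hM1, hM2⟩ := F.exists_max (F.TI_span hxx)
  have hxM : x ∈ M := hM1 (Submodule.mem_span_singleton_self x)
  obtain ⟨t, htx, ht⟩ := exists_t hK hn hV h M hM2.1 A hA
  obtain ⟨c, hc⟩ := adjust hθ hxx (v := z + t) (by rw [F.addr, F.sw htx, add_zero]; exact h)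
  set y := z + t + c • x with hy
  have hyx : F.H x y = F.H x z := by
    rw [hy, F.addr, F.addr, F.smulr, F.sw htx, hxx, mul_zero, add_zero, add_zero]
  have hyx' : F.H y x = F.H z x := by
    rw [← F.symm, hyx, F.symm]
  let M1 : Submodule K V :=
    { carrier := {m | m ∈ M ∧ F.H m y = 0}
      zero_mem' := ⟨M.zero_mem, F.zerol y⟩
      add_mem' := fun {a b} ha hb => ⟨M.add_mem ha.1 hb.1, by rw [F.addl, ha.2, hb.2, add_zero]⟩
      smul_mem' := fun a m hm => ⟨M.smul_mem a hm.1, by rw [F.smull, hm.2, mul_zero]⟩ }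
  have hM1T : F.TI M1 := fun u hu v hv => hM2.1 u hu.1 v hv.1
  obtain ⟨M', hM'1, hM'2⟩ := F.exists_max (F.TI_sup hM1T hc (fun m hm => hm.2))
  have hyM' : y ∈ M' := hM'1 (Submodule.mem_sup_right (Submodule.mem_span_singleton_self y))
  have hM1M' : ∀ m ∈ M1, m ∈ M' := fun m hm => hM'1 (Submodule.mem_sup_left hm)
  obtain ⟨s, hs, hSs⟩ := hS.ex M' hM'2
  have hsx : F.H s x ≠ 0 := by
    intro h1
    obtain ⟨b, hb⟩ := hS.par hSs hx h1
    have h2 : x ∈ M' := by
      rw [hb]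
      exact M'.smul_mem b hs
    have h3 := hM'2.1 x h2 y hyM'
    rw [hyx] at h3
    exact h h3
  have hSz' : S ((F.H z x / F.H s x) • s) := hS.sm _ s (div_ne_zero h' hsx) hSs
  have hz'x : F.H ((F.H z x / F.H s x) • s) x = F.H z x := by
    rw [F.smull]
    field_simp
  have hz'M : (F.H z x / F.H s x) • s ∈ M' := M'.smul_mem _ hs
  generalize (F.H z x / F.H s x) • s = z' at *
  refine ⟨z', hSz', hz'x, ?_⟩
  have huM' : z' - y ∈ M' := M'.sub_mem hz'M hyM'
  have hux : F.H (z' - y) x = 0 := by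
    rw [F.subl, hz'x, hyx', sub_self]
  have huM : z' - y ∈ M := by
    apply F.mem_of_perp hM2 (hM'2.1 _ huM' _ huM')
    intro m hm
    have h1 : F.H m x = 0 := hM2.1 m hm x hxM
    have h2 : m - (F.H m y / F.H x y) • x ∈ M1 := by
      refine ⟨M.sub_mem hm (M.smul_mem _ hxM), ?_⟩
      rw [F.subl, F.smull, hyx]
      field_simp
      ring
    have h3 := hM'2.1 _ (hM1M' _ h2) _ huM'
    rw [F.subl, F.smull, F.sw hux, mul_zero, sub_zero] at h3
    exact h3
  intro hA'
  apply ht (-(z' - y) - c • x + (F.H (z' - z) z / F.H x z) • x)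
    (M.add_mem (M.sub_mem (M.neg_mem huM) (M.smul_mem _ hxM)) (M.smul_mem _ hxM))
    (F.pr x z (z' - z)) hA'
  have h1 := F.pr_eq x z (z' - z)
  have h2 : t = y - z - c • x := by rw [hy]; abel
  rw [add_assoc, add_comm _ (F.pr x z (z' - z)), ← h1, h2]
  abel

omit [Finite K] [Finite V] in
include hS hx h in
/-- A far point is not in the orbit of `z`. -/
theorem not_orbit {z' : V} (hz' : F.H z' x = F.H z x) (hz'A : F.pr x z (z' - z) ∉ img h G hG)
    {g : V ≃ₗ[K] V} (hg : g ∈ G) (a : K) : z' ≠ a • g z := by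
  intro he
  have hxx := hS.iso x hx
  have h' : F.H z x ≠ 0 := fun h2 => h (F.sw h2)
  have h1 : F.H (g z) x = F.H z x := by
    have := (hG g hg).isom z x
    rwa [(hG g hg).fix] at this
  have h2 : a = 1 := by
    rw [he, F.smull, h1] at hz'
    have h3 : (a - 1) * F.H z x = 0 := by linear_combination hz'
    rcases mul_eq_zero.1 h3 with h4 | h4
    · linear_combination h4
    · exact absurd h4 h'
  apply hz'A
  rw [he, h2, one_smul]
  exact ⟨g, hg, rfl⟩

include hK hbar hS hx hz h hG hGS in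
theorem card_G_lt {n : ℕ} (hn : 2 ≤ n) (hV : Nat.card V = q ^ (4 * n + 4)) :
    Nat.card G < q ^ 3 := by
  classical
  have hq := two_le_q hK
  have hxx := hS.iso x hx
  have hzz := hS.iso z hz
  have hA := card_img hK hbar hS hx hz h G hG hGS
  have hZ := card_Z hK hbar hS hx hz h G hG
  have hGc := card_G_le hS hx h G hG
  by_contra hcon
  push Not at hcon
  have h1 : q ^ 3 ≤ Nat.card (img h G hG) * Nat.card (Zt F x G) := hcon.trans hGc
  have hA2 : Nat.card (img h G hG) = q ^ 2 := by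
    apply le_antisymm hA
    by_contra h2
    push Not at h2
    have h3 : Nat.card (img h G hG) * Nat.card (Zt F x G) < q ^ 2 * q :=
      lt_of_le_of_lt (Nat.mul_le_mul_left _ hZ) (Nat.mul_lt_mul_of_pos_right h2 (by omega))
    have h4 : q ^ 2 * q = q ^ 3 := by ring
    omega
  have hZ2 : q ≤ Nat.card (Zt F x G) := by
    rw [hA2] at h1
    have h4 : q ^ 3 = q ^ 2 * q := by ring
    rw [h4] at h1
    exact Nat.le_of_mul_le_mul_left h1 (by positivity)
  obtain ⟨z', hSz', hz'x, hz'A⟩ := exists_far hK hbar hS hx hz h hn hV (img h G hG) hA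
  have hzx' : F.H x z' = F.H x z := by rw [← F.symm, hz'x, F.symm]
  -- an isotropic difference
  have h5 : -F.pr x z (z' - z) ∉ img h G hG := by
    intro h6
    apply hz'A
    have := (img h G hG).neg_mem h6
    rwa [neg_neg] at this
  obtain ⟨v, hv, hviso⟩ := F.exists_iso_coset hK hbar (img h G hG) (by
    intro u hu hu0
    obtain ⟨θ, hθ⟩ := exists_theta hK F.bar hbar F.bb
    obtain ⟨g, hg, rfl⟩ := (mem_img h G hG).1 hu
    exact aniso hθ hS hx hz h (hG g hg) (hGS g hg) hu0) hA2 _ h5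
  obtain ⟨g, hg, rfl⟩ := (mem_img h G hG).1 hv
  have hgx : F.H (g z) x = F.H z x := by
    have := (hG g hg).isom z x
    rwa [(hG g hg).fix] at this
  have hdiff : F.H (g z - z') (g z - z') = 0 := by
    obtain ⟨e, he⟩ : ∃ e : K, g z - z' = (F.W x z g + -F.pr x z (z' - z)) + e • x := by
      refine ⟨F.H (g z - z) z / F.H x z - F.H (z' - z) z / F.H x z, ?_⟩
      have h1 := F.pr_eq x z (z' - z)
      have h2 := F.pr_eq x z (g z - z)
      rw [sub_smul]
      have h3 : g z - z' = (g z - z) - (z' - z) := by abel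
      rw [h3, W]
      nth_rewrite 1 [h1]
      nth_rewrite 1 [h2]
      abel
    have hx0 : F.H (F.W x z g + -F.pr x z (z' - z)) x = 0 := by
      rw [F.addl, F.negl, W_x hxx (hG g hg), pr_x hxx, F.subl, hz'x, sub_self, neg_zero, add_zero]
    have hgen : ∀ r : V, F.H r r = 0 → F.H r x = 0 → F.H (r + e • x) (r + e • x) = 0 := by
      intro r hr hrx
      simp only [F.addl, F.addr, F.smull, F.smulr, hr, hrx, F.sw hrx, hxx]
      ring
    rw [he]
    exact hgen _ hviso hx0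
  have hgzz : F.H (g z) (g z) = 0 := by rw [(hG g hg).isom, hzz]
  have hz'z' := hS.iso z' hSz'
  have htr : -F.H (g z) z' + (-F.H (g z) z') ^ q = 0 := by
    rw [F.subl, F.subr, F.subr, hgzz, hz'z'] at hdiff
    rw [← hbar, map_neg, F.symm]
    linear_combination hdiff
  -- surjectivity of the transvections
  have hsurj : ∃ g0 : Zt F x G, F.H (g0.1 z) z = -F.H (g z) z' := by
    let f : Zt F x G → {a : K // a + a ^ q = 0} :=
      fun g => ⟨F.H (g.1 z) z, trace_Z hbar hS hx hz h G hG g⟩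
    have hf : Function.Injective f := by
      intro g1 g2 hgg
      apply inj_Z hS hz h G hG
      exact congrArg Subtype.val hgg
    have hf2 : Function.Bijective f := by
      rw [Nat.bijective_iff_injective_and_card]
      refine ⟨hf, le_antisymm (Nat.card_le_card_of_injective f hf) ?_⟩
      exact (card_trace_zero hK).trans hZ2
    obtain ⟨g0, hg0⟩ := hf2.2 ⟨_, htr⟩
    exact ⟨g0, congrArg Subtype.val hg0⟩
  obtain ⟨g0, hg0⟩ := hsurj
  have hWg0 := W_of_triv h (hG g0.1 g0.2.1) g0.2.2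
  obtain ⟨e, he⟩ := F.gz x z g0.1
  rw [hWg0, add_zero] at he
  have h7 : g0.1 (g z) = g z + e • x := by
    have h8 : g z = (g z - z) + z := by abel
    have h9 : g0.1 (g z - z) = g z - z := g0.2.2 _ (D_x (hG g hg) z)
    rw [h8, map_add, h9, he]
    abel
  have h10 : e * F.H x z = -F.H (g z) z' := by
    rw [← hg0, he, F.addl, F.smull, hzz, zero_add]
  have h11 : F.H (g0.1 (g z)) z' = 0 := by
    rw [h7, F.addl, F.smull, hzx', h10]
    ring
  have h12 : S (g0.1 (g z)) := hGS g0.1 g0.2.1 _ (hGS g hg z hz)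
  obtain ⟨a, ha⟩ := hS.par h12 hSz' h11
  exact not_orbit hS hx h G hG hz'x hz'A (G.mul_mem g0.2.1 hg) a ha

end HF

end Pool.Agent.Ovo
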